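import Pool.Agent.helper75.WB.SpecI

/-!
# Project wb, row IZU: uniqueness of the coordinates
-/

set_option autoImplicit false

namespace Pool.Agent.WB

theorem IZU : IZU_stmt := by
  intro M X0 p q q' x y x₁ y₁ hco hM hX h1 h2 hx hy hx₁ hy₁
  obtain ⟨a, b, hab⟩ := hco
  obtain ⟨t, ht⟩ : ∃ t : ℤ, t = (x - x₁) * b - (y - y₁) * a := ⟨_, rfl⟩
  have h0 : (x - x₁) * q + (y - y₁) * q' = 0 := by linear_combination h1 - h2
  have hdx : x - x₁ = t * q' := by
    rw [ht]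
    linear_combination (-(x - x₁)) * hab + a * h0
  have hdy : y - y₁ = -(t * q) := by
    rw [ht]
    linear_combination (-(y - y₁)) * hab + b * h0
  by_cases h : t = 0
  · rw [h] at hdx hdy
    constructor <;> linarith
  · exfalso
    have ht1 : (1 : ℝ) ≤ |(t : ℝ)| := by
      have : (1 : ℤ) ≤ |t| := Int.one_le_abs h
      exact_mod_cast this
    have hX0 : 0 ≤ X0 := (abs_nonneg _).trans hx
    have hq' : |(q' : ℝ)| ≤ 2 * X0 := by
      have e : |(x : ℝ) - x₁| = |(t : ℝ)| * |(q' : ℝ)| := by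
        rw [← abs_mul]
        exact_mod_cast congrArg (fun z : ℤ => |z|) hdx
      have e2 : |(x : ℝ) - x₁| ≤ 2 * X0 := (abs_sub _ _).trans (by linarith)
      nlinarith [abs_nonneg (q' : ℝ)]
    have hq : |(q : ℝ)| ≤ 2 * X0 := by
      have e : |(y : ℝ) - y₁| = |(t : ℝ)| * |(q : ℝ)| := by
        rw [← abs_mul, ← abs_neg ((t : ℝ) * q)]
        exact_mod_cast congrArg (fun z : ℤ => |z|) hdy
      have e2 : |(y : ℝ) - y₁| ≤ 2 * X0 := (abs_sub _ _).trans (by linarith)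
      nlinarith [abs_nonneg (q : ℝ)]
    have hp : (p : ℝ) = x * q + y * q' := by exact_mod_cast h1.symm
    have hp2 : (p : ℝ) ≤ |(x : ℝ)| * |(q : ℝ)| + |(y : ℝ)| * |(q' : ℝ)| := by
      rw [hp, ← abs_mul, ← abs_mul]
      exact add_le_add (le_abs_self _) (le_abs_self _)
    have m1 : |(x : ℝ)| * |(q : ℝ)| ≤ X0 * (2 * X0) :=
      mul_le_mul hx hq (abs_nonneg _) hX0
    have m2 : |(y : ℝ)| * |(q' : ℝ)| ≤ X0 * (2 * X0) :=
      mul_le_mul hy hq' (abs_nonneg _) hX0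
    nlinarith

end Pool.Agent.WB
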