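import Pool.Agent.helper78.WB.SpecIII

/-!
# Project wb, row VALP

The value functions mod `ℓ` lie in the range of the evaluation map on the forms of degree `n` over
`ZMod ℓ`, which has a non-zero kernel.
-/

set_option autoImplicit false

namespace Pool.Agent.WB

open MvPolynomial

/-- the evaluation map on the forms of degree `n` over `ZMod ℓ` -/
noncomputable def evC (ℓ n : ℕ) (C : Finset V3) :
    homogeneousSubmodule (Fin 3) (ZMod ℓ) n →ₗ[ZMod ℓ] (C → ZMod ℓ) :=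
  LinearMap.pi fun ζ : C => (aeval (redv ℓ ζ.1) : MvPolynomial (Fin 3) (ZMod ℓ) →ₐ[ZMod ℓ] ZMod ℓ).toLinearMap.comp
    (homogeneousSubmodule (Fin 3) (ZMod ℓ) n).subtype

theorem evC_apply (ℓ n : ℕ) (C : Finset V3) (P : homogeneousSubmodule (Fin 3) (ZMod ℓ) n)
    (ζ : C) : evC ℓ n C P ζ = eval (redv ℓ ζ.1) P.1 := by
  simp [evC, aeval_eq_eval]

theorem VALP (h1 : DIM3_stmt) : VALP_stmt := by
  intro ℓ hℓ n C g hg hgh hgC
  obtain ⟨hfin, _, hrank⟩ := h1.2 (ZMod ℓ) n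
  have hsub : valSet n ℓ C ⊆ (LinearMap.range (evC ℓ n C) : Set (C → ZMod ℓ)) := by
    rintro f ⟨Q, hQ, hf⟩
    refine ⟨⟨redp ℓ Q, hQ.map _⟩, ?_⟩
    funext ζ
    rw [evC_apply, hf ζ]
    show eval (redv ℓ ζ.1) (map (Int.castRingHom (ZMod ℓ)) Q) = _
    rw [← eval₂_eq_eval_map]
    have := eval₂_comp (Int.castRingHom (ZMod ℓ)) ζ.1 Q
    rw [Int.coe_castRingHom] at this
    exact this.symm
  have hker : 1 ≤ Module.finrank (ZMod ℓ) (LinearMap.ker (evC ℓ n C)) := by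
    have hmem : (⟨g, hgh⟩ : homogeneousSubmodule (Fin 3) (ZMod ℓ) n) ∈ LinearMap.ker (evC ℓ n C) := by
      rw [LinearMap.mem_ker]
      funext ζ
      rw [evC_apply]
      exact hgC ζ.1 ζ.2
    have hnt : Nontrivial (LinearMap.ker (evC ℓ n C)) := by
      refine ⟨⟨⟨_, hmem⟩, 0, ?_⟩⟩
      intro he
      apply hg
      have := congrArg Subtype.val (congrArg Subtype.val he)
      exact this
    exact Module.finrank_pos
  have hsum := LinearMap.finrank_range_add_finrank_ker (evC ℓ n C)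
  rw [hrank] at hsum
  calc (valSet n ℓ C).ncard
      ≤ ((LinearMap.range (evC ℓ n C) : Set (C → ZMod ℓ))).ncard :=
        Set.ncard_le_ncard hsub (Set.toFinite _)
    _ = Nat.card (LinearMap.range (evC ℓ n C)) := rfl
    _ = Nat.card (ZMod ℓ) ^ Module.finrank (ZMod ℓ) (LinearMap.range (evC ℓ n C)) :=
        Module.natCard_eq_pow_finrank
    _ = ℓ ^ Module.finrank (ZMod ℓ) (LinearMap.range (evC ℓ n C)) := by rw [Nat.card_zmod]
    _ ≤ ℓ ^ (s3 n - 1) := Nat.pow_le_pow_right hℓ.out.pos (by omega)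

end Pool.Agent.WB
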